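import Pool.Agent.H26.EvenWilf.Parity

/-!
# Even-Wilf-equivalence of `13524` and `42531` fails at `n = 14`
-/

namespace Pool.Agent.Results.MP_b0fbe2_co.DisproofAtFourteen

open Finset

/-- `π ∈ S_n` contains the pattern `σ`, a word `σ 0, …, σ (k-1)` given in one-line form:
some increasing choice of indices `f` makes `π (f 0), …, π (f (k-1))` order-isomorphic
to `σ`. -/
def Contains {n k : ℕ} (π : Equiv.Perm (Fin n)) (σ : Fin k → ℕ) : Prop :=
  ∃ f : Fin k → Fin n, StrictMono f ∧ ∀ i j, π (f i) < π (f j) ↔ σ i < σ j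

open Classical in
/-- the set of the even permutations in `S_n` that avoid `σ` -/
noncomputable def E (n : ℕ) {k : ℕ} (σ : Fin k → ℕ) : Finset (Equiv.Perm (Fin n)) :=
  univ.filter fun π => Equiv.Perm.sign π = 1 ∧ ¬ Contains π σ

/-- `σ` and `τ` are even-Wilf-equivalent -/
def EvenWilfEquiv {k : ℕ} (σ τ : Fin k → ℕ) : Prop :=
  ∀ n : ℕ, 1 ≤ n → (E n σ).card = (E n τ).card

lemma contains_iff_occ {n : ℕ} (π : Equiv.Perm (Fin n)) :
    Contains π ![4, 2, 5, 3, 1] ↔ EvenWilf.Occ π := by
  constructor
  · rintro ⟨f, hf, h⟩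
    refine ⟨f 0, f 1, f 2, f 3, f 4, hf (by decide), hf (by decide), hf (by decide),
      hf (by decide), (h 4 1).2 (by decide), (h 1 3).2 (by decide), (h 3 0).2 (by decide),
      (h 0 2).2 (by decide)⟩
  · rintro ⟨b, x, c, a, v, h1, h2, h3, h4, h5, h6, h7, h8⟩
    refine ⟨![b, x, c, a, v], ?_, ?_⟩
    · rw [Fin.strictMono_iff_lt_succ]
      intro i
      fin_cases i
      · exact h1
      · exact h2
      · exact h3
      · exact h4
    · intro i j
      fin_cases i <;> fin_cases j <;> simp <;> order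

lemma contains_iff_occ_rev {n : ℕ} (π : Equiv.Perm (Fin n)) :
    Contains π ![1, 3, 5, 2, 4] ↔ EvenWilf.Occ (Fin.revPerm.trans π) := by
  constructor
  · rintro ⟨f, hf, h⟩
    refine ⟨(f 4).rev, (f 3).rev, (f 2).rev, (f 1).rev, (f 0).rev,
      Fin.rev_lt_rev.2 (hf (by decide)), Fin.rev_lt_rev.2 (hf (by decide)),
      Fin.rev_lt_rev.2 (hf (by decide)), Fin.rev_lt_rev.2 (hf (by decide)), ?_⟩
    simp only [Equiv.trans_apply, Fin.revPerm_apply, Fin.rev_rev]
    exact ⟨(h 0 3).2 (by decide), (h 3 1).2 (by decide), (h 1 4).2 (by decide),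
      (h 4 2).2 (by decide)⟩
  · rintro ⟨b, x, c, a, v, h1, h2, h3, h4, h5, h6, h7, h8⟩
    simp only [Equiv.trans_apply, Fin.revPerm_apply] at h5 h6 h7 h8
    refine ⟨![v.rev, a.rev, c.rev, x.rev, b.rev], ?_, ?_⟩
    · rw [Fin.strictMono_iff_lt_succ]
      intro i
      fin_cases i
      · exact Fin.rev_lt_rev.2 h4
      · exact Fin.rev_lt_rev.2 h3
      · exact Fin.rev_lt_rev.2 h2
      · exact Fin.rev_lt_rev.2 h1
    · intro i j
      fin_cases i <;> fin_cases j <;> simp <;> order

lemma sign_rev : Equiv.Perm.sign (Fin.revPerm : Equiv.Perm (Fin 14)) = -1 := by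
  decide +kernel

/-- **Disproof.**  The numbers of even permutations of fourteen letters that avoid `13524` and
`42531` differ.  Hence the four even-Wilf-equivalences do not all hold. -/
theorem result :
    (E 14 ![1, 3, 5, 2, 4]).card ≠ (E 14 ![4, 2, 5, 3, 1]).card ∧
    ¬ (EvenWilfEquiv ![1, 2, 3, 4, 5] ![4, 5, 3, 1, 2] ∧
       EvenWilfEquiv ![5, 4, 3, 2, 1] ![2, 1, 3, 5, 4] ∧
       EvenWilfEquiv ![1, 2, 3, 5, 4] ![4, 5, 3, 2, 1] ∧
       EvenWilfEquiv ![1, 3, 5, 2, 4] ![4, 2, 5, 3, 1]) := by
  classical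
  have key : (E 14 ![1, 3, 5, 2, 4]).card ≠ (E 14 ![4, 2, 5, 3, 1]).card := by
    have h1 : (E 14 ![1, 3, 5, 2, 4]).card =
        (univ.filter fun π : Equiv.Perm (Fin 14) =>
          Equiv.Perm.sign π = -1 ∧ ¬ EvenWilf.Occ π).card := by
      refine card_bij (fun π _ => Fin.revPerm.trans π) ?_ ?_ ?_
      · intro π hπ
        simp only [E, mem_filter, mem_univ, true_and] at hπ ⊢
        refine ⟨?_, fun h => hπ.2 ((contains_iff_occ_rev π).2 h)⟩
        rw [Equiv.Perm.sign_trans, sign_rev, hπ.1]
        rfl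
      · intro π _ π' _ h
        have : Fin.revPerm.trans (Fin.revPerm.trans π) = Fin.revPerm.trans (Fin.revPerm.trans π') :=
          congrArg _ h
        ext i
        have := congrArg (fun e => e i) this
        simpa using congrArg Fin.val this
      · intro τ hτ
        simp only [mem_filter, mem_univ, true_and] at hτ
        have hτ' : Fin.revPerm.trans (Fin.revPerm.trans τ) = τ := by
          ext i; simp
        refine ⟨Fin.revPerm.trans τ, ?_, hτ'⟩
        simp only [E, mem_filter, mem_univ, true_and]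
        refine ⟨?_, ?_⟩
        · rw [Equiv.Perm.sign_trans, sign_rev, hτ.1]
          rfl
        · rw [contains_iff_occ_rev, hτ']
          exact hτ.2
    have h2 : (E 14 ![4, 2, 5, 3, 1]).card =
        (univ.filter fun π : Equiv.Perm (Fin 14) =>
          Equiv.Perm.sign π = 1 ∧ ¬ EvenWilf.Occ π).card := by
      congr 1
      ext π
      simp only [E, mem_filter, mem_univ, true_and, contains_iff_occ]
    have h3 : (E 14 ![1, 3, 5, 2, 4]).card + (E 14 ![4, 2, 5, 3, 1]).card =
        (univ.filter fun π : Equiv.Perm (Fin 14) => ¬ EvenWilf.Occ π).card := by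
      rw [h1, h2, ← card_union_of_disjoint]
      · congr 1
        ext π
        simp only [mem_union, mem_filter, mem_univ, true_and]
        rcases Int.units_eq_one_or (Equiv.Perm.sign π) with h | h
        · rw [h]
          constructor
          · rintro (⟨h, _⟩ | ⟨_, h⟩)
            · exact absurd h (by decide)
            · exact h
          · intro h; exact Or.inr ⟨rfl, h⟩
        · rw [h]
          constructor
          · rintro (⟨_, h⟩ | ⟨h, _⟩)
            · exact h
            · exact absurd h (by decide)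
          · intro h; exact Or.inl ⟨rfl, h⟩
      · rw [disjoint_left]
        intro π hπ hπ'
        simp only [mem_filter, mem_univ, true_and] at hπ hπ'
        rw [hπ.1] at hπ'
        exact absurd hπ'.1 (by decide)
    intro heq
    have hodd := EvenWilf.odd_card_av
    have h4 : Odd ((E 14 ![1, 3, 5, 2, 4]).card + (E 14 ![4, 2, 5, 3, 1]).card) := by
      rw [h3]
      convert hodd
    rw [heq] at h4
    exact (Nat.not_odd_iff_even.2 (Even.add_self _)) h4
  refine ⟨key, ?_⟩
  rintro ⟨-, -, -, h⟩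
  exact key (h 14 (by norm_num))

end Pool.Agent.Results.MP_b0fbe2_co.DisproofAtFourteen
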